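import Pool.Agent.Helper43.EV.Goals

/-!
# EV, packet ORA
-/

set_option autoImplicit false

namespace Pool.Agent.Helper72.EV.ORA

open Module Pool.Agent.Helper43.EV
open Pool.Agent.Helper3.QGr (prj prj_coe prj_ker)

theorem t : Pool.Agent.Helper43.EV.ORA := by
  intro F _ _ V _ _ _ ψ z hz NA hNA hex a b X hzX
  have hfk : LinearMap.ker ((prj ψ z hz).comp X.1.2.subtype) = ⊥ := by
    rw [LinearMap.ker_eq_bot']
    intro x hx
    have h1 : (x : V) ∈ LinearMap.ker (prj ψ z hz) := by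
      rw [LinearMap.mem_ker]
      exact hx
    rw [prj_ker, Submodule.mem_span_singleton] at h1
    obtain ⟨c, hc⟩ := h1
    by_cases hc0 : c = 0
    · apply Subtype.ext
      rw [← hc, hc0, zero_smul]
      rfl
    · exfalso
      apply hzX
      have h2 : c⁻¹ • (x : V) ∈ X.1.2 := X.1.2.smul_mem _ x.2
      rwa [← hc, smul_smul, inv_mul_cancel₀ hc0, one_smul] at h2
  obtain ⟨g, hg⟩ := LinearMap.exists_leftInverse_of_injective _ hfk
  have hl : ∀ l : Dual F X.1.2, ∃ u : TG F V,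
      (∃ φ : Dual F (LinearMap.ker ψ), ∀ x : V,
        (u : V ≃ₗ[F] V) x = x + φ (prj ψ z hz x) • z) ∧
      ∀ x : X.1.2, (u : V ≃ₗ[F] V) (x : V) = (x : V) + l x • z := by
    intro l
    obtain ⟨u, hu⟩ := hex (l.comp g)
    refine ⟨u, ⟨l.comp g, hu⟩, ?_⟩
    intro x
    rw [hu]
    have h1 : g (prj ψ z hz (x : V)) = x := LinearMap.congr_fun hg x
    rw [LinearMap.comp_apply, h1]
  choose u hu1 hu2 using hl
  have hmem : ∀ l, u l ∈ NA := fun l => (hNA _).mpr (hu1 l)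
  let Φ : Dual F X.1.2 → MulAction.orbit NA X := fun l => ⟨u l • X, ⟨⟨u l, hmem l⟩, rfl⟩⟩
  have hinj : Function.Injective Φ := by
    intro l l' h
    have h1 : u l • X = u l' • X := congrArg Subtype.val h
    have h2 : X.1.2.map ((u l : V ≃ₗ[F] V) : V →ₗ[F] V) =
        X.1.2.map ((u l' : V ≃ₗ[F] V) : V →ₗ[F] V) :=
      congrArg (fun Y : Fl F V a b => Y.1.2) h1
    ext x
    have h3 : (x : V) + l x • z ∈ X.1.2.map ((u l' : V ≃ₗ[F] V) : V →ₗ[F] V) := by
      rw [← h2]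
      exact ⟨x, x.2, hu2 l x⟩
    obtain ⟨y, hy, hyx⟩ := h3
    have h4 : (y : V) + l' ⟨y, hy⟩ • z = (x : V) + l x • z := by
      rw [← hyx]
      exact (hu2 l' ⟨y, hy⟩).symm
    have h5 : (l' ⟨y, hy⟩ - l x) • z ∈ X.1.2 := by
      have h6 : (l' ⟨y, hy⟩ - l x) • z = (x : V) - y := by
        rw [sub_smul, sub_eq_sub_iff_add_eq_add, add_comm _ y, h4]
      rw [h6]
      exact X.1.2.sub_mem x.2 hy
    have h6 : l' ⟨y, hy⟩ = l x := by
      by_contra hne
      apply hzX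
      have h0 : l' ⟨y, hy⟩ - l x ≠ 0 := sub_ne_zero.mpr hne
      have h7 := X.1.2.smul_mem (l' ⟨y, hy⟩ - l x)⁻¹ h5
      rwa [smul_smul, inv_mul_cancel₀ h0, one_smul] at h7
    have h7 : y = x := by
      rw [h6] at h4
      exact add_right_cancel h4
    have h8 : (⟨y, hy⟩ : X.1.2) = x := Subtype.ext h7
    rw [h8] at h6
    exact h6.symm
  have h8 := Nat.card_le_card_of_injective Φ hinj
  rw [Nat.card_coe_set_eq, Module.natCard_eq_pow_finrank (K := F) (V := Dual F X.1.2),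
    Subspace.dual_finrank_eq, X.2.2.2] at h8
  exact h8

end Pool.Agent.Helper72.EV.ORA
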